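import Pool.Agent.H36.ENR.Stmts2

/-!
Row CYN of board enr: an automorphism of `p`-power order whose `p ^ j`-th power is inner (`j ≤ a`)
is killed by `p ^ a`.
-/

set_option autoImplicit false

namespace Pool.ENR

theorem cyn_geom (x m n : ℕ) : ∑ l ∈ Finset.range (m * n), x ^ l =
    (∑ l ∈ Finset.range m, x ^ l) * ∑ k ∈ Finset.range n, (x ^ m) ^ k := by
  induction n with
  | zero => simp
  | succ n ih =>
    rw [Nat.mul_succ, Finset.sum_range_add, ih, Finset.sum_range_succ, mul_add, add_right_inj,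
      Finset.sum_mul]
    refine Finset.sum_congr rfl fun l _ => ?_
    rw [pow_add, ← pow_mul, mul_comm]

theorem cyn_sum {p lam : ℕ} (hlam : lam ≡ 1 [MOD p]) (j : ℕ) :
    p ^ j ∣ ∑ l ∈ Finset.range (p ^ j), lam ^ l := by
  induction j with
  | zero => simp
  | succ j ih =>
    rw [pow_succ, cyn_geom]
    refine mul_dvd_mul ih ?_
    have h1 : ((lam : ℕ) : ZMod p) = ((1 : ℕ) : ZMod p) :=
      (ZMod.natCast_eq_natCast_iff _ _ _).mpr hlam
    rw [← ZMod.natCast_eq_zero_iff]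
    push_cast at h1 ⊢
    rw [h1]
    simp

theorem cyn_s {T : Type} [Group T] (σ : MulAut T) (s : T) (lam : ℕ) (h : σ s = s ^ lam) (M : ℕ) :
    (σ ^ M) s = s ^ (lam ^ M) := by
  induction M with
  | zero => simp
  | succ M ih => rw [pow_succ, MulAut.mul_apply, h, map_pow, ih, ← pow_mul, ← pow_succ]

theorem cyn_n {T : Type} [Group T] (σ : MulAut T) (s n : T) (lam be : ℕ) (h : σ s = s ^ lam)
    (hn : σ n = s ^ be * n) (M : ℕ) :
    (σ ^ M) n = s ^ (be * ∑ l ∈ Finset.range M, lam ^ l) * n := by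
  induction M with
  | zero => simp
  | succ M ih =>
    rw [pow_succ, MulAut.mul_apply, hn, map_mul, map_pow, cyn_s σ s lam h, ih, ← mul_assoc,
      ← pow_mul, ← pow_add, Finset.sum_range_succ]
    congr 2
    ring

theorem cyn_thm (h1 : FXCStmt) : CYNStmt := by
  intro T _ _ p a N j σ s₀ n₀ h hcen hp hp2 ha hs₀ hcard hn₀ hσ hja hσj
  obtain ⟨s, n, lam, be, hs, hn, hσs, hlam, hσn⟩ :=
    h1 T p a N σ s₀ n₀ hp hp2 ha hs₀ hcard hn₀ hσ
  have : Fact p.Prime := ⟨hp⟩
  -- `h` has `p`-power order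
  have hh : h ^ p ^ N = 1 := by
    apply hcen
    rw [map_pow, ← hσj, ← pow_mul, mul_comm, pow_mul, hσ, one_pow]
  -- the Sylow subgroup
  have hfac : (Nat.card T).factorization p = a := by
    have hd : p ^ a ∣ Nat.card T := hs ▸ orderOf_dvd_natCard s
    have h0 : Nat.card T ≠ 0 := Nat.card_pos.ne'
    apply le_antisymm
    · by_contra hlt
      exact hcard (((hp.pow_dvd_iff_le_factorization h0).mpr (by omega)))
    · exact (hp.pow_dvd_iff_le_factorization h0).mp hd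
  let Q : Sylow p T := Sylow.ofCard (Subgroup.zpowers s) (by
    rw [hfac, Nat.card_zpowers, hs])
  have hQ : (Q : Subgroup T) = Subgroup.zpowers s := rfl
  have hconj : ∀ x : T, h * x * h⁻¹ = (σ ^ p ^ j) x := fun x => by
    rw [hσj, MulAut.conj_apply]
  have hhs : h * s * h⁻¹ = s ^ (lam ^ p ^ j) := by
    rw [hconj, cyn_s σ s lam hσs]
  have hmap : ∀ x, x ∈ Subgroup.zpowers s → h * x * h⁻¹ ∈ Subgroup.zpowers s := by
    rintro x ⟨z, rfl⟩
    show h * s ^ z * h⁻¹ ∈ _
    rw [← conj_zpow, hhs]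
    exact Subgroup.zpow_mem _ (Subgroup.pow_mem _ (Subgroup.mem_zpowers s) _) _
  have hnorm : h ∈ Subgroup.normalizer ((Q : Subgroup T) : Set T) := by
    rw [hQ, Subgroup.mem_normalizer_iff]
    intro x
    refine ⟨hmap x, fun hx => ?_⟩
    have hinj : Function.Injective (fun y : Subgroup.zpowers s =>
        (⟨h * y * h⁻¹, hmap y y.2⟩ : Subgroup.zpowers s)) := by
      intro y y' hyy
      have := congrArg Subtype.val hyy
      apply Subtype.ext
      simpa using this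
    obtain ⟨y, hy⟩ := (Finite.injective_iff_surjective.mp hinj) ⟨h * x * h⁻¹, hx⟩
    have hy' := congrArg Subtype.val hy
    have : (y : T) = x := by simpa using hy'
    rw [← this]
    exact y.2
  have hP : IsPGroup p (Subgroup.zpowers h) := by
    intro g
    obtain ⟨z, hz⟩ := g.2
    refine ⟨N, Subtype.ext ?_⟩
    push_cast
    rw [← hz]
    show (h ^ z) ^ p ^ N = 1
    rw [← zpow_natCast, ← zpow_mul, mul_comm, zpow_mul, zpow_natCast, hh, one_zpow]
  have hhQ : h ∈ Subgroup.zpowers s := by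
    have h2 : h ∈ Subgroup.zpowers h ⊓ Subgroup.normalizer (Q : Set T) :=
      ⟨Subgroup.mem_zpowers h, hnorm⟩
    rw [hP.inf_normalizer_sylow Q] at h2
    exact h2.2
  obtain ⟨i, hi⟩ : ∃ i : ℕ, s ^ i = h := by
    have := (isOfFinOrder_of_finite s).mem_powers_iff_mem_zpowers.mpr hhQ
    exact this
  -- the exponent
  have hns : n * (s ^ i)⁻¹ * n⁻¹ = s ^ i := by
    have h2 : n * s ^ i * n⁻¹ = (s ^ i)⁻¹ := by
      rw [← conj_pow, hn, inv_pow]
    calc n * (s ^ i)⁻¹ * n⁻¹ = (n * s ^ i * n⁻¹)⁻¹ := by group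
      _ = s ^ i := by rw [h2, inv_inv]
  have h3 : s ^ (2 * i) = s ^ (be * ∑ l ∈ Finset.range (p ^ j), lam ^ l) := by
    have h4 := hconj n
    rw [cyn_n σ s n lam be hσs hσn, ← hi] at h4
    have h5 : s ^ i * n * (s ^ i)⁻¹ = s ^ (2 * i) * n := by
      calc s ^ i * n * (s ^ i)⁻¹ = s ^ i * (n * (s ^ i)⁻¹ * n⁻¹) * n := by group
        _ = s ^ i * s ^ i * n := by rw [hns]
        _ = s ^ (2 * i) * n := by rw [← pow_add, two_mul]
    rw [h5] at h4
    exact mul_right_cancel h4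
  rw [pow_eq_pow_iff_modEq, hs] at h3
  have h6 : p ^ j ∣ 2 * i := by
    have h7 : 2 * i ≡ be * ∑ l ∈ Finset.range (p ^ j), lam ^ l [MOD p ^ j] :=
      h3.of_dvd (pow_dvd_pow p hja)
    exact (h7.dvd_iff dvd_rfl).mpr (dvd_mul_of_dvd_right (cyn_sum hlam j) _)
  have h8 : p ^ j ∣ i := by
    have : Nat.Coprime (p ^ j) 2 :=
      Nat.Coprime.pow_left j ((Nat.coprime_primes hp Nat.prime_two).mpr hp2)
    exact this.dvd_of_dvd_mul_left h6
  have h9 : h ^ p ^ (a - j) = 1 := by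
    obtain ⟨c, hc⟩ := h8
    rw [← hi, ← pow_mul, hc]
    apply orderOf_dvd_iff_pow_eq_one.mp
    rw [hs]
    refine ⟨c, ?_⟩
    have : p ^ a = p ^ j * p ^ (a - j) := by rw [← pow_add]; congr 1; omega
    rw [this]
    ring
  have h10 : p ^ a = p ^ j * p ^ (a - j) := by rw [← pow_add]; congr 1; omega
  rw [h10, pow_mul, hσj, ← map_pow, h9, map_one]

end Pool.ENR
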