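import Pool.Agent.H29.ENR.Stmts9

/-!
Row SER of board enr: an abelian section of a `p`-group on which a `p'`-element acts nontrivially.
-/

set_option autoImplicit false

namespace Pool.ENR

open Pool.Agent.H81.ENG

theorem ser_inv {T : Type} [Group T] (n : T) (S : Subgroup T)
    (h : S.map (MulAut.conj n).toMonoidHom = S) (x : T) : x ∈ S ↔ n * x * n⁻¹ ∈ S := by
  constructor
  · intro hx
    rw [← h]
    exact ⟨x, hx, rfl⟩
  · intro hx
    rw [← h] at hx
    obtain ⟨y, hy, hyx⟩ := hx
    have h1 : n * y * n⁻¹ = n * x * n⁻¹ := hyx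
    have h2 : y = x := by simpa using h1
    rw [← h2]
    exact hy

theorem ser_pow {T : Type} [Group T] (n x c : T) (h1 : n * x * n⁻¹ = c * x) (h2 : n * c = c * n)
    (m : ℕ) : n ^ m * x * (n ^ m)⁻¹ = c ^ m * x := by
  induction m with
  | zero => simp
  | succ m ih =>
    have h3 : n * c ^ m = c ^ m * n := (Commute.pow_right (show Commute n c from h2) m).eq
    calc n ^ (m + 1) * x * (n ^ (m + 1))⁻¹ = n * (n ^ m * x * (n ^ m)⁻¹) * n⁻¹ := by
          rw [pow_succ']; group
      _ = n * c ^ m * x * n⁻¹ := by rw [ih]; group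
      _ = c ^ m * (n * x * n⁻¹) := by rw [h3]; group
      _ = c ^ (m + 1) * x := by rw [h1, pow_succ]; group

theorem ser_thm : SERStmt := by
  intro T _ _ p _ Q n k hQ hn hk hpk hex
  have hpp : p.Prime := Fact.out
  let S : ℕ → Subgroup T := fun i => (derivedSeries Q i).map Q.subtype
  have hS0 : S 0 = Q := by
    show (derivedSeries Q 0).map Q.subtype = Q
    rw [derivedSeries_zero, ← MonoidHom.range_eq_map, Subgroup.range_subtype]
  have hS1 : ∀ i, S (i + 1) = ⁅S i, S i⁆ := by
    intro i
    show (derivedSeries Q (i + 1)).map Q.subtype = _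
    rw [derivedSeries_succ, Subgroup.map_commutator]
  have hSQ : ∀ i, S i ≤ Q := by
    intro i x hx
    obtain ⟨y, -, rfl⟩ := hx
    exact y.2
  have hle : ∀ i, S (i + 1) ≤ S i := by
    intro i
    rw [hS1, Subgroup.commutator_le]
    intro a ha b hb
    exact (S i).mul_mem ((S i).mul_mem ((S i).mul_mem ha hb) ((S i).inv_mem ha))
      ((S i).inv_mem hb)
  have hmap : ∀ i, (S i).map (MulAut.conj n).toMonoidHom = S i := by
    intro i
    induction i with
    | zero =>
      rw [hS0]
      apply le_antisymm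
      · rintro _ ⟨y, hy, rfl⟩
        exact (hn y).mp hy
      · intro x hx
        refine ⟨n⁻¹ * x * n, ?_, ?_⟩
        · show n⁻¹ * x * n ∈ Q
          rw [hn]
          have : n * (n⁻¹ * x * n) * n⁻¹ = x := by group
          rw [this]
          exact hx
        · show n * (n⁻¹ * x * n) * n⁻¹ = x
          group
    | succ i ih => rw [hS1, Subgroup.map_commutator, ih]
  have hsolv : Group.IsSolvable Q := by
    have : Group.IsNilpotent Q := hQ.isNilpotent
    infer_instance
  obtain ⟨r, hr⟩ := hsolv.solvable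
  have hSr : S r = ⊥ := by
    show (derivedSeries Q r).map Q.subtype = ⊥
    rw [hr, Subgroup.map_bot]
  suffices h : ∃ i, ∃ x ∈ S i, n * x * n⁻¹ * x⁻¹ ∉ S (i + 1) by
    obtain ⟨i, x, hx, hx'⟩ := h
    refine ⟨S i, S (i + 1), hSQ i, hle i, ?_, ser_inv n _ (hmap i), ser_inv n _ (hmap (i + 1)),
      x, hx, hx'⟩
    intro a ha b hb
    rw [hS1]
    exact Subgroup.commutator_mem_commutator ha hb
  by_contra hcon
  push Not at hcon
  have key : ∀ j ≤ r, ∀ x ∈ S (r - j), n * x = x * n := by
    intro j
    induction j with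
    | zero =>
      intro _ x hx
      rw [Nat.sub_zero, hSr, Subgroup.mem_bot] at hx
      rw [hx, mul_one, one_mul]
    | succ j ih =>
      intro hj x hx
      have h1 := hcon _ x hx
      have h2 : r - (j + 1) + 1 = r - j := by omega
      rw [h2] at h1
      obtain ⟨c, hc⟩ : ∃ c, c = n * x * n⁻¹ * x⁻¹ := ⟨_, rfl⟩
      rw [← hc] at h1
      have h3 := ih (by omega) c h1
      have h4 : n * x * n⁻¹ = c * x := by rw [hc]; group
      have h5 := ser_pow n x c h4 h3 k
      rw [hk, inv_one, mul_one, one_mul] at h5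
      have h6 : c ^ k = 1 := by
        have : c ^ k * x = 1 * x := by rw [one_mul]; exact h5.symm
        exact mul_right_cancel this
      obtain ⟨e, he⟩ := hQ ⟨c, hSQ _ h1⟩
      have h7 : c ^ p ^ e = 1 := by
        have := congrArg Subtype.val he
        simpa using this
      have h8 : Nat.Coprime (p ^ e) k :=
        Nat.Coprime.pow_left e ((Nat.Prime.coprime_iff_not_dvd hpp).mpr hpk)
      have h9 : c = 1 := by
        rw [← orderOf_eq_one_iff]
        exact Nat.eq_one_of_dvd_coprimes h8 (orderOf_dvd_of_pow_eq_one h7)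
          (orderOf_dvd_of_pow_eq_one h6)
      rw [h9, one_mul] at h4
      exact mul_inv_eq_iff_eq_mul.mp h4
  obtain ⟨x, hx, hne⟩ := hex
  apply hne
  apply key r le_rfl
  rw [Nat.sub_self, hS0]
  exact hx

end Pool.ENR
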