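import Pool.Agent.H14.ENR.Stmts4

/-!
Row SWP of board enr: even powers of an automorphism of swap type.
-/

set_option autoImplicit false

namespace Pool.ENR

open Pool.Agent.H81.ENG Pool.Agent.H55.NEU

theorem swp_sq {F : Type} [Field F] (σ : MulAut (PS F)) (a : Fˣ) (φ : F ≃+* F)
    (h : SwF σ a φ) :
    σ ^ 2 = ee (a * (Units.map (φ : F →* F) a)⁻¹) (φ ^ 2) := by
  have ha : (a : F) * ((a⁻¹ : Fˣ) : F) = 1 := Units.mul_inv a
  have hφa : φ ((a⁻¹ : Fˣ) : F) = (φ (a : F))⁻¹ := by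
    rw [Units.val_inv_eq_inv_val, map_inv₀]
  have hc : ((a * (Units.map (φ : F →* F) a)⁻¹ : Fˣ) : F) = a * φ ((a⁻¹ : Fˣ) : F) := by
    rw [hφa, Units.val_mul, Units.val_inv_eq_inv_val]
    rfl
  have hc' : (((a * (Units.map (φ : F →* F) a)⁻¹)⁻¹ : Fˣ) : F) = ((a⁻¹ : Fˣ) : F) * φ (a : F) := by
    rw [mul_inv, inv_inv, Units.val_mul]
    rfl
  ext g : 1
  obtain ⟨N, rfl⟩ := pr_surj g
  rw [pow_two, MulAut.mul_apply]
  let M : SL2 F := mk2 (φ (N 1 1)) (a * φ (N 1 0)) (((a⁻¹ : Fˣ) : F) * φ (N 0 1)) (φ (N 0 0)) (by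
    have h1 := congrArg φ (sl_det N)
    rw [map_sub, map_mul, map_mul, map_one] at h1
    linear_combination h1 - φ (N 0 1) * φ (N 1 0) * ha)
  rw [h N M rfl rfl rfl rfl, ee_pr]
  apply h M
  · rfl
  · show ((a * (Units.map (φ : F →* F) a)⁻¹ : Fˣ) : F) * (φ ^ 2) (N 0 1) =
      a * φ (((a⁻¹ : Fˣ) : F) * φ (N 0 1))
    rw [hc, map_mul, ← mul_assoc]
    rfl
  · show (((a * (Units.map (φ : F →* F) a)⁻¹)⁻¹ : Fˣ) : F) * (φ ^ 2) (N 1 0) =
      ((a⁻¹ : Fˣ) : F) * φ (a * φ (N 1 0))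
    rw [hc', map_mul, ← mul_assoc]
    rfl
  · rfl

theorem swp_thm : SWPStmt := by
  intro F _ σ a φ h k
  induction k with
  | zero =>
    refine ⟨1, by simp, ?_⟩
    rw [Nat.mul_zero, pow_zero, pow_zero, ee_one_one]
  | succ k ih =>
    obtain ⟨c, hc, hσ⟩ := ih
    refine ⟨c * Units.map ((φ ^ (2 * k) : F ≃+* F) : F →* F) (a * (Units.map (φ : F →* F) a)⁻¹),
      ?_, ?_⟩
    · rw [Finset.prod_range_succ, Units.val_mul, hc]
      congr 1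
      show (φ ^ (2 * k)) (((a * (Units.map (φ : F →* F) a)⁻¹ : Fˣ) : F)) = _
      rw [Units.val_mul, Units.val_inv_eq_inv_val]
      rfl
    · rw [Nat.mul_succ, pow_add, pow_add, hσ, swp_sq σ a φ h, ee_mul]

end Pool.ENR
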